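import Mathlib

/-!
# Closing-off under a finitary operation
-/

set_option autoImplicit false

open Set Topology Cardinal

universe u

namespace Pool.Agent.Helper68.WCG

variable {X : Type u}

/-- one closing-off step -/
def step (θ : Finset (X × ℚ × ℚ) → ℕ → X) (S : Set X) : Set X :=
  S ∪ {x | ∃ F : Finset (X × ℚ × ℚ), (∀ p ∈ F, p.1 ∈ S) ∧ ∃ n, θ F n = x}

/-- the closure of `S` under `θ`. -/
def cl (θ : Finset (X × ℚ × ℚ) → ℕ → X) (S : Set X) : Set X :=
  ⋃ k : ℕ, (step θ)^[k] S

variable {θ : Finset (X × ℚ × ℚ) → ℕ → X}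

theorem subset_step (S : Set X) : S ⊆ step θ S := subset_union_left

theorem step_mono {S T : Set X} (h : S ⊆ T) : step θ S ⊆ step θ T := by
  rintro x (hx | ⟨F, hF, n, hn⟩)
  · exact Or.inl (h hx)
  · exact Or.inr ⟨F, fun p hp => h (hF p hp), n, hn⟩

theorem iter_mono (S : Set X) : Monotone fun k : ℕ => (step θ)^[k] S := by
  apply monotone_nat_of_le_succ
  intro k
  rw [Function.iterate_succ_apply']
  exact subset_step _

theorem subset_cl (S : Set X) : S ⊆ cl θ S := by
  intro x hx
  exact mem_iUnion.2 ⟨0, hx⟩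

/-- being closed under `θ` -/
def Closed (θ : Finset (X × ℚ × ℚ) → ℕ → X) (T : Set X) : Prop :=
  ∀ F : Finset (X × ℚ × ℚ), (∀ p ∈ F, p.1 ∈ T) → ∀ n, θ F n ∈ T

theorem exists_bound {T : ℕ → Set X} (hT : Monotone T) (F : Finset (X × ℚ × ℚ))
    (hF : ∀ p ∈ F, p.1 ∈ ⋃ k, T k) : ∃ k, ∀ p ∈ F, p.1 ∈ T k := by
  classical
  induction F using Finset.induction_on with
  | empty => exact ⟨0, by simp⟩
  | insert a F ha ih =>
    obtain ⟨k, hk⟩ := ih (fun p hp => hF p (Finset.mem_insert_of_mem hp))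
    obtain ⟨m, hm⟩ := mem_iUnion.1 (hF a (Finset.mem_insert_self a F))
    refine ⟨max k m, fun p hp => ?_⟩
    rcases Finset.mem_insert.1 hp with rfl | hp
    · exact hT (le_max_right k m) hm
    · exact hT (le_max_left k m) (hk p hp)

theorem closed_cl (S : Set X) : Closed θ (cl θ S) := by
  intro F hF n
  obtain ⟨k, hk⟩ := exists_bound (iter_mono S) F hF
  refine mem_iUnion.2 ⟨k + 1, ?_⟩
  rw [Function.iterate_succ_apply']
  exact Or.inr ⟨F, hk, n, rfl⟩

theorem cl_subset {S T : Set X} (h : S ⊆ T) (hT : Closed θ T) : cl θ S ⊆ T := by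
  have : ∀ k : ℕ, (step θ)^[k] S ⊆ T := by
    intro k
    induction k with
    | zero => exact h
    | succ k ih =>
      rw [Function.iterate_succ_apply']
      rintro x (hx | ⟨F, hF, n, hn⟩)
      · exact ih hx
      · rw [← hn]
        exact hT F (fun p hp => ih (hF p hp)) n
  exact iUnion_subset this

theorem cl_mono {S T : Set X} (h : S ⊆ T) : cl θ S ⊆ cl θ T :=
  cl_subset (h.trans (subset_cl T)) (closed_cl T)

/-- closures of directed unions. -/
theorem cl_subset_iUnion {ι : Type*} [Nonempty ι] {S : ι → Set X}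
    (hd : Directed (· ⊆ ·) S) {T : Set X} (hT : T ⊆ ⋃ i, S i) :
    cl θ T ⊆ ⋃ i, cl θ (S i) := by
  apply cl_subset
  · refine hT.trans (iUnion_mono fun i => subset_cl _)
  · intro F hF n
    have hdir : Directed (· ⊆ ·) fun i => cl θ (S i) := by
      intro i j
      obtain ⟨k, hk1, hk2⟩ := hd i j
      exact ⟨k, cl_mono hk1, cl_mono hk2⟩
    have : ∃ i, ∀ p ∈ F, p.1 ∈ cl θ (S i) := by
      classical
      induction F using Finset.induction_on with
      | empty => exact ⟨Classical.arbitrary ι, by simp⟩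
      | insert a F ha ih =>
        obtain ⟨k, hk⟩ := ih (fun p hp => hF p (Finset.mem_insert_of_mem hp))
        obtain ⟨m, hm⟩ := mem_iUnion.1 (hF a (Finset.mem_insert_self a F))
        obtain ⟨l, hl1, hl2⟩ := hdir k m
        refine ⟨l, fun p hp => ?_⟩
        rcases Finset.mem_insert.1 hp with rfl | hp
        · exact hl2 hm
        · exact hl1 (hk p hp)
    obtain ⟨i, hi⟩ := this
    exact mem_iUnion.2 ⟨i, closed_cl _ F hi n⟩

theorem mk_step_le {X : Type} {θ : Finset (X × ℚ × ℚ) → ℕ → X} (S : Set X) :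
    #(step θ S) ≤ max #S ℵ₀ := by
  classical
  -- the new part is a surjective image
  let φ : Finset (S × ℚ × ℚ) × ℕ → X := fun p =>
    θ (p.1.map ⟨fun s => ((s.1 : X), s.2), by
      intro a b h
      simp only [Prod.mk.injEq] at h
      exact Prod.ext (Subtype.ext h.1) h.2⟩) p.2
  have hsub : step θ S ⊆ S ∪ range φ := by
    rintro x (hx | ⟨F, hF, n, hn⟩)
    · exact Or.inl hx
    · right
      refine ⟨(F.attach.map ⟨fun p => ((⟨p.1.1, hF p.1 p.2⟩ : S), p.1.2), by
        intro a b h
        simp only [Prod.mk.injEq, Subtype.mk.injEq] at h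
        exact Subtype.ext (Prod.ext h.1 h.2)⟩, n), ?_⟩
      simp only [φ, Finset.map_map]
      rw [← hn]
      congr 1
      ext p
      simp only [Finset.mem_map, Finset.mem_attach, Function.Embedding.trans_apply,
        true_and, Subtype.exists]
      constructor
      · rintro ⟨a, ha, rfl⟩
        exact ha
      · intro hp
        exact ⟨p, hp, rfl⟩
  have h1 : #(step θ S) ≤ #S + #(range φ) := (mk_le_mk_of_subset hsub).trans (mk_union_le _ _)
  have h2 : #(range φ) ≤ #(Finset (S × ℚ × ℚ) × ℕ) := mk_range_le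
  have h3 : #(Finset (S × ℚ × ℚ) × ℕ) ≤ max #S ℵ₀ := by
    rw [mk_prod, lift_id, lift_id, mk_nat]
    rcases isEmpty_or_nonempty S with hS | hS
    · have : #(Finset (S × ℚ × ℚ)) = 1 := by
        rw [Cardinal.eq_one_iff_unique]
        constructor
        · constructor
          intro a b
          have ha : a = ∅ := Finset.eq_empty_of_isEmpty a
          have hb : b = ∅ := Finset.eq_empty_of_isEmpty b
          rw [ha, hb]
        · exact ⟨∅⟩
      rw [this, one_mul]
      exact le_max_right _ _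
    · rw [mk_finset_of_infinite, mk_prod, mk_prod]
      simp only [lift_id]
      have hQ : #ℚ = ℵ₀ := Cardinal.mkRat
      rw [hQ, aleph0_mul_aleph0, mul_assoc, aleph0_mul_aleph0]
      refine (mul_le_max _ _).trans ?_
      simp
  calc #(step θ S) ≤ #S + #(range φ) := h1
    _ ≤ max #S ℵ₀ + max #S ℵ₀ := add_le_add (le_max_left _ _) (h2.trans h3)
    _ = max #S ℵ₀ := add_eq_self (le_max_right _ _)

theorem mk_cl_le {X : Type} {θ : Finset (X × ℚ × ℚ) → ℕ → X} (S : Set X) :
    #(cl θ S) ≤ max #S ℵ₀ := by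
  have h : ∀ k : ℕ, #((step θ)^[k] S : Set X) ≤ max #S ℵ₀ := by
    intro k
    induction k with
    | zero => exact le_max_left _ _
    | succ k ih =>
      rw [Function.iterate_succ_apply']
      refine (mk_step_le _).trans ?_
      exact max_le ih (le_max_right _ _)
  unfold cl
  refine (mk_iUnion_le _).trans ?_
  rw [mk_nat]
  have h2 : ⨆ i : ℕ, #((step θ)^[i] S : Set X) ≤ max #S ℵ₀ := ciSup_le' h
  calc ℵ₀ * ⨆ i : ℕ, #((step θ)^[i] S : Set X) ≤ max #S ℵ₀ * max #S ℵ₀ :=
        mul_le_mul' (le_max_right _ _) h2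
    _ = max #S ℵ₀ := mul_eq_self (le_max_right _ _)

end Pool.Agent.Helper68.WCG
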