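import Mathlib
import Pool.Agent.Helper68.WCG.Closing

/-!
# Fragmentability of the dual by the seminorm of an Asplund set, and a finitary generator
-/

set_option autoImplicit false
set_option linter.style.haveILetI false

open Set Topology

namespace Pool.Agent.Helper68.WCG

variable {X : Type} [NormedAddCommGroup X] [NormedSpace ℝ X]

/-- Rational box in the dual. -/
def box (F : Finset (X × ℚ × ℚ)) : Set (WeakDual ℝ X) :=
  {h | ∀ p ∈ F, (p.2.1 : ℝ) < h p.1 ∧ h p.1 < (p.2.2 : ℝ)}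

theorem isOpen_box (F : Finset (X × ℚ × ℚ)) : IsOpen (box F) := by
  have : box F = ⋂ p ∈ F, {h : WeakDual ℝ X | (p.2.1 : ℝ) < h p.1 ∧ h p.1 < (p.2.2 : ℝ)} := by
    ext h
    simp [box]
  rw [this]
  refine isOpen_biInter_finset fun p _ => ?_
  have hc : Continuous fun h : WeakDual ℝ X => h p.1 := WeakDual.eval_continuous p.1
  exact (isOpen_lt continuous_const hc).inter (isOpen_lt hc continuous_const)

/-- Separating a functional from a compact set by a box supported in `S`. -/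
theorem box_sep {C : Set (WeakDual ℝ X)} (hC : IsCompact C) (f : WeakDual ℝ X) (S : Set X)
    (h : ∀ g ∈ C, ∃ s ∈ S, g s ≠ f s) :
    ∃ F : Finset (X × ℚ × ℚ), (∀ p ∈ F, p.1 ∈ S) ∧ f ∈ box F ∧ ∀ g ∈ C, g ∉ box F := by
  classical
  have key : ∀ g ∈ C, ∃ p : X × ℚ × ℚ, p.1 ∈ S ∧ ((p.2.1 : ℝ) < f p.1 ∧ f p.1 < (p.2.2 : ℝ)) ∧
      {g' : WeakDual ℝ X | g' p.1 < (p.2.1 : ℝ) ∨ (p.2.2 : ℝ) < g' p.1} ∈ 𝓝 g := by
    intro g hg
    obtain ⟨s, hs, hne⟩ := h g hg
    have hc : Continuous fun h : WeakDual ℝ X => h s := WeakDual.eval_continuous s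
    rcases lt_or_gt_of_ne hne with hlt | hgt
    · obtain ⟨a, ha1, ha2⟩ := exists_rat_btwn hlt
      obtain ⟨b, hb⟩ := exists_rat_gt (f s)
      refine ⟨(s, a, b), hs, ⟨ha2, hb⟩, ?_⟩
      filter_upwards [(isOpen_lt hc continuous_const).mem_nhds ha1] with g' hg'
      exact Or.inl hg'
    · obtain ⟨b, hb1, hb2⟩ := exists_rat_btwn hgt
      obtain ⟨a, ha⟩ := exists_rat_lt (f s)
      refine ⟨(s, a, b), hs, ⟨ha, hb1⟩, ?_⟩
      filter_upwards [(isOpen_lt continuous_const hc).mem_nhds hb2] with g' hg'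
      exact Or.inr hg'
  choose! p hpS hpf hpn using key
  obtain ⟨t, htC, htcov⟩ := hC.elim_nhds_subcover _ hpn
  refine ⟨t.image p, ?_, ?_, ?_⟩
  · intro q hq
    obtain ⟨g, hg, rfl⟩ := Finset.mem_image.1 hq
    exact hpS g (htC g hg)
  · intro q hq
    obtain ⟨g, hg, rfl⟩ := Finset.mem_image.1 hq
    exact hpf g (htC g hg)
  · intro g hg hbox
    obtain ⟨g', hg't, hg'⟩ := mem_iUnion₂.1 (htcov hg)
    have := hbox (p g') (Finset.mem_image_of_mem p hg't)
    rcases hg' with h1 | h1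
    · exact absurd this.1 (not_lt.2 h1.le)
    · exact absurd this.2 (not_lt.2 h1.le)

/-- The seminorm of `A` is separable over countable subsets of `A`. -/
def AspSet (A : Set X) : Prop :=
  ∀ S ⊆ A, S.Countable → ∃ Z : Set (X →L[ℝ] ℝ), Z.Countable ∧
    ∀ f : X →L[ℝ] ℝ, ∀ ε > 0, ∃ z ∈ Z, ∀ a ∈ S, |f a - z a| ≤ ε

/-- Weak-star compact sets are fragmented by the seminorm of an Asplund set. -/
theorem frag {A : Set X} (hA : AspSet A) {C : Set (WeakDual ℝ X)} (hC : IsCompact C)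
    (hne : C.Nonempty) {ε : ℝ} (hε : 0 < ε) :
    ∃ U : Set (WeakDual ℝ X), IsOpen U ∧ (C ∩ U).Nonempty ∧
      ∀ f ∈ C ∩ U, ∀ g ∈ C ∩ U, ∀ a ∈ A, |f a - g a| ≤ ε := by
  classical
  by_contra hcon
  push Not at hcon
  -- witnesses
  have hwit : ∀ F : Finset (X × ℚ × ℚ), ∃ a ∈ A, (C ∩ box F).Nonempty →
      ∃ f ∈ C ∩ box F, ∃ g ∈ C ∩ box F, ε < |f a - g a| := by
    intro F
    by_cases hF : (C ∩ box F).Nonempty
    · obtain ⟨f, hf, g, hg, a, ha, h⟩ := hcon (box F) (isOpen_box F) hF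
      exact ⟨a, ha, fun _ => ⟨f, hf, g, hg, h⟩⟩
    · obtain ⟨f, hf, g, hg, a, ha, h⟩ := hcon univ isOpen_univ (by simpa using hne)
      exact ⟨a, ha, fun h => absurd h hF⟩
  choose w hwA hw using hwit
  let θ : Finset (X × ℚ × ℚ) → ℕ → X := fun F _ => w F
  let S : Set X := cl θ ∅
  have hSA : S ⊆ A := cl_subset (empty_subset _) (fun F _ _ => hwA F)
  have hScl : Closed θ S := closed_cl _
  have hSc : S.Countable := by
    have := mk_cl_le (θ := θ) (∅ : Set X)
    simp only [Cardinal.mk_eq_zero, zero_le, sup_of_le_right] at this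
    exact Cardinal.le_aleph0_iff_set_countable.1 this
  obtain ⟨Z, hZc, hZ⟩ := hA S hSA hSc
  -- restriction to S
  let r : WeakDual ℝ X → (S → ℝ) := fun h s => h s.1
  have hr : Continuous r := continuous_pi fun s => WeakDual.eval_continuous s.1
  let K : Set (S → ℝ) := r '' C
  have hK : IsCompact K := hC.image hr
  haveI : CompactSpace K := isCompact_iff_compactSpace.1 hK
  haveI : Nonempty K := (hne.image r).to_subtype
  haveI : Countable Z := hZc.to_subtype
  let T : Z → Set K := fun z => {k | ∀ s : S, |k.1 s - z.1 s.1| ≤ ε / 3}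
  have hTclosed : ∀ z, IsClosed (T z) := by
    intro z
    have : T z = ⋂ s : S, {k : K | |k.1 s - z.1 s.1| ≤ ε / 3} := by
      ext k
      simp [T]
    rw [this]
    refine isClosed_iInter fun s => ?_
    refine isClosed_le ?_ continuous_const
    exact (((continuous_apply s).comp continuous_subtype_val).sub continuous_const).abs
  have hTcov : ⋃ z, T z = univ := by
    refine eq_univ_of_forall fun k => ?_
    obtain ⟨h, hhC, hh⟩ := k.2
    obtain ⟨z, hz, hz2⟩ := hZ h (ε / 3) (by positivity)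
    refine mem_iUnion.2 ⟨⟨z, hz⟩, fun s => ?_⟩
    have := hz2 s.1 s.2
    rw [← hh]
    exact this
  obtain ⟨z, k0, hk0⟩ := nonempty_interior_of_iUnion_of_closed hTclosed hTcov
  -- the open set
  obtain ⟨O, hO, hOeq⟩ := isOpen_induced_iff.1 (isOpen_interior (s := T z))
  have hk0O : k0.1 ∈ O := by
    have : k0 ∈ Subtype.val ⁻¹' O := by rw [hOeq]; exact hk0
    exact this
  obtain ⟨h0, hh0C, hh0⟩ := k0.2
  -- compact set to be separated from `h0`
  let C' : Set (WeakDual ℝ X) := C ∩ r ⁻¹' Oᶜ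
  have hC' : IsCompact C' := hC.inter_right (hO.isClosed_compl.preimage hr)
  obtain ⟨F, hFS, hFf, hFC⟩ := box_sep hC' h0 S (by
    intro g hg
    by_contra hcon2
    push Not at hcon2
    have : r g = r h0 := funext fun s => hcon2 s.1 s.2
    apply hg.2
    show r g ∈ O
    rw [this, hh0]
    exact hk0O)
  have hmem : ∀ g ∈ C ∩ box F, ∀ s ∈ S, |g s - z.1 s| ≤ ε / 3 := by
    intro g hg s hs
    have hgO : r g ∈ O := by
      by_contra hn
      exact hFC g ⟨hg.1, hn⟩ hg.2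
    have : (⟨r g, ⟨g, hg.1, rfl⟩⟩ : K) ∈ Subtype.val ⁻¹' O := hgO
    rw [hOeq] at this
    have := interior_subset this
    exact this ⟨s, hs⟩
  obtain ⟨f, hf, g, hg, hlt⟩ := hw F ⟨h0, hh0C, hFf⟩
  have hwS : w F ∈ S := hScl F hFS 0
  have h1 := hmem f hf _ hwS
  have h2 := hmem g hg _ hwS
  have h3 : |f (w F) - g (w F)| ≤ ε / 3 + ε / 3 := by
    calc |f (w F) - g (w F)| = |(f (w F) - z.1 (w F)) - (g (w F) - z.1 (w F))| := by ring_nf
      _ ≤ |f (w F) - z.1 (w F)| + |g (w F) - z.1 (w F)| := abs_sub _ _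
      _ ≤ ε / 3 + ε / 3 := add_le_add h1 h2
  linarith

end Pool.Agent.Helper68.WCG
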