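import Mathlib
import Pool.Agent.Helper68.WCG.Slice

/-!
# The finitary generator obtained by transfinite slicing
-/

set_option autoImplicit false
set_option linter.style.haveILetI false

open Set Topology

namespace Pool.Agent.Helper68.WCG

/-- Transfinite removal of open sets. -/
noncomputable def cs {W : Type} (B : Set W) (U : Set W → Set W) (ξ : Ordinal.{0}) : Set W :=
  B ∩ ⋂ η : Set.Iio ξ, (U (cs B U η.1))ᶜ
termination_by ξ
decreasing_by exact η.2

section cs

variable {W : Type} {B : Set W} {U : Set W → Set W}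

theorem mem_cs {ξ : Ordinal.{0}} {x : W} :
    x ∈ cs B U ξ ↔ x ∈ B ∧ ∀ η < ξ, x ∉ U (cs B U η) := by
  rw [cs]
  simp

theorem cs_anti {η ξ : Ordinal.{0}} (h : η ≤ ξ) : cs B U ξ ⊆ cs B U η := by
  intro x hx
  rw [mem_cs] at hx ⊢
  exact ⟨hx.1, fun ζ hζ => hx.2 ζ (hζ.trans_le h)⟩

theorem exists_cs_empty (hU : ∀ C, C ⊆ B → (∃ ξ, C = cs B U ξ) → C.Nonempty → (C ∩ U C).Nonempty) :
    ∃ ξ : Ordinal.{0}, cs B U ξ = ∅ := by
  by_contra hcon
  push Not at hcon
  have : ∀ ξ, ∃ x, x ∈ cs B U ξ ∩ U (cs B U ξ) := by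
    intro ξ
    exact hU _ (fun x hx => (mem_cs.1 hx).1) ⟨ξ, rfl⟩ (hcon ξ)
  choose g hg using this
  apply not_injective_of_ordinal g
  intro η ξ h
  by_contra hne
  rcases lt_or_gt_of_ne hne with hlt | hgt
  · have h1 := (mem_cs.1 (hg ξ).1).2 η hlt
    rw [← h] at h1
    exact h1 (hg η).2
  · have h1 := (mem_cs.1 (hg η).1).2 ξ hgt
    rw [h] at h1
    exact h1 (hg ξ).2

end cs

variable {X : Type} [NormedAddCommGroup X] [NormedSpace ℝ X]

/-- The finitary generator. -/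
theorem exists_gen {A : Set X} (hA : AspSet A) (N ε : ℝ) (hε : 0 < ε) :
    ∃ g : Finset (X × ℚ × ℚ) → (X →L[ℝ] ℝ), ∀ S : Set X, ∀ f : X →L[ℝ] ℝ, ‖f‖ ≤ N →
      ∃ F, (∀ p ∈ F, p.1 ∈ S) ∧ ∀ a ∈ A, a ∈ closure S → |f a - g F a| ≤ ε := by
  classical
  let B : Set (WeakDual ℝ X) := WeakDual.toStrongDual ⁻¹' Metric.closedBall 0 N
  have hB : IsCompact B := WeakDual.isCompact_closedBall 0 N
  have hex : ∀ C : Set (WeakDual ℝ X), ∃ U : Set (WeakDual ℝ X), IsOpen U ∧
      (IsCompact C → C.Nonempty → (C ∩ U).Nonempty ∧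
      ∀ f ∈ C ∩ U, ∀ g ∈ C ∩ U, ∀ a ∈ A, |f a - g a| ≤ ε) := by
    intro C
    by_cases h : IsCompact C ∧ C.Nonempty
    · obtain ⟨U, hU, h1, h2⟩ := frag hA h.1 h.2 hε
      exact ⟨U, hU, fun _ _ => ⟨h1, h2⟩⟩
    · exact ⟨univ, isOpen_univ, fun h1 h2 => absurd ⟨h1, h2⟩ h⟩
  choose U hUo hU using hex
  have hcomp : ∀ ξ, IsCompact (cs B U ξ) := by
    intro ξ
    rw [cs]
    exact hB.inter_right (isClosed_iInter fun η => (hUo _).isClosed_compl)
  obtain ⟨ξ1, hξ1⟩ : ∃ ξ : Ordinal.{0}, cs B U ξ = ∅ := by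
    apply exists_cs_empty
    rintro C - ⟨ξ, rfl⟩ hne
    exact (hU _ (hcomp ξ) hne).1
  -- the ordinal attached to a box
  let good : Finset (X × ℚ × ℚ) → Set Ordinal.{0} := fun F =>
    {η | ∀ h ∈ cs B U η, h ∉ U (cs B U η) → h ∉ box F}
  let o : Finset (X × ℚ × ℚ) → Ordinal.{0} := fun F => sInf (good F)
  let g : Finset (X × ℚ × ℚ) → (X →L[ℝ] ℝ) := fun F =>
    if h : (cs B U (o F) ∩ U (cs B U (o F))).Nonempty then WeakDual.toStrongDual h.some else 0
  refine ⟨g, fun S f hf => ?_⟩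
  -- functional as a weak star element
  let f' : WeakDual ℝ X := StrongDual.toWeakDual f
  have hf'B : f' ∈ B := by
    show WeakDual.toStrongDual f' ∈ Metric.closedBall 0 N
    rw [mem_closedBall_zero_iff]
    exact hf
  have hf'app : ∀ x, f' x = f x := fun x => rfl
  let E : Ordinal.{0} → Set (WeakDual ℝ X) := fun ξ => {h | h ∈ cs B U ξ ∧ ∀ s ∈ S, h s = f s}
  have hEclosed : ∀ ξ, IsCompact (E ξ) := by
    intro ξ
    have : E ξ = cs B U ξ ∩ ⋂ s ∈ S, {h : WeakDual ℝ X | h s = f s} := by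
      ext h
      simp [E]
    rw [this]
    refine (hcomp ξ).inter_right ?_
    refine isClosed_biInter fun s _ => ?_
    exact isClosed_eq (WeakDual.eval_continuous s) continuous_const
  have hEanti : ∀ η ξ, η ≤ ξ → E ξ ⊆ E η := fun η ξ h x hx => ⟨cs_anti h hx.1, hx.2⟩
  let emp : Set Ordinal.{0} := {ξ | E ξ = ∅}
  have hemp : emp.Nonempty := by
    refine ⟨ξ1, ?_⟩
    show E ξ1 = ∅
    rw [eq_empty_iff_forall_notMem]
    intro x hx
    have := hx.1
    rw [hξ1] at this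
    exact this
  let ξ0 := sInf emp
  have hξ0 : E ξ0 = ∅ := csInf_mem hemp
  have hlt0 : ∀ ξ < ξ0, (E ξ).Nonempty := by
    intro ξ hξ
    rw [nonempty_iff_ne_empty]
    intro h
    exact notMem_of_lt_csInf' hξ h
  have hpos : 0 < ξ0 := by
    rcases eq_or_lt_of_le (zero_le (a := ξ0)) with h | h
    · exfalso
      have h1 : f' ∈ E ξ0 := by
        rw [← h]
        refine ⟨?_, fun s _ => rfl⟩
        rw [mem_cs]
        exact ⟨hf'B, fun η hη => absurd hη (not_lt.2 (zero_le (a := η)))⟩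
      rw [hξ0] at h1
      exact h1
    · exact h
  -- there is a last stage
  obtain ⟨ξ, hξlt, hξ⟩ : ∃ ξ < ξ0, ∀ h ∈ E ξ, h ∈ U (cs B U ξ) := by
    by_contra hcon
    push Not at hcon
    haveI : Nonempty (Set.Iio ξ0) := ⟨⟨0, hpos⟩⟩
    let T : Set.Iio ξ0 → Set (WeakDual ℝ X) := fun η => E η.1 ∩ (U (cs B U η.1))ᶜ
    have hT : (⋂ i, T i).Nonempty := by
      apply IsCompact.nonempty_iInter_of_directed_nonempty_isCompact_isClosed T
      · intro η ζ
        -- decreasing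
        have key : ∀ a b : Set.Iio ξ0, a.1 ≤ b.1 → T b ⊆ T a := by
          intro a b hab x hx
          rcases eq_or_lt_of_le hab with h | h
          · have : a = b := Subtype.ext h
            rw [this]
            exact hx
          · exact ⟨hEanti _ _ hab hx.1, (mem_cs.1 hx.1.1).2 _ h⟩
        rcases le_total η.1 ζ.1 with h | h
        · exact ⟨ζ, key η ζ h, fun x hx => hx⟩
        · exact ⟨η, fun x hx => hx, key ζ η h⟩
      · intro η
        obtain ⟨h, hh, hh2⟩ := hcon η.1 η.2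
        exact ⟨h, hh, hh2⟩
      · intro η
        exact (hEclosed _).inter_right (hUo _).isClosed_compl
      · intro η
        exact ((hEclosed _).inter_right (hUo _).isClosed_compl).isClosed
    obtain ⟨h, hh⟩ := hT
    rw [mem_iInter] at hh
    have h0 := hh ⟨0, hpos⟩
    have : h ∈ E ξ0 := by
      refine ⟨?_, h0.1.2⟩
      rw [mem_cs]
      exact ⟨(mem_cs.1 h0.1.1).1, fun η hη => (hh ⟨η, hη⟩).2⟩
    rw [hξ0] at this
    exact this
  obtain ⟨fe, hfe⟩ := hlt0 ξ hξlt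
  -- separate by a box
  have hC1 : IsCompact (cs B U ξ ∩ (U (cs B U ξ))ᶜ) :=
    (hcomp ξ).inter_right (hUo _).isClosed_compl
  obtain ⟨F, hFS, hFf, hFC⟩ := box_sep hC1 f' S (by
    intro h hh
    by_contra hcon
    push Not at hcon
    exact hh.2 (hξ h ⟨hh.1, fun s hs => hcon s hs⟩))
  refine ⟨F, hFS, ?_⟩
  have hmemgood : ξ ∈ good F := fun h hh hn => hFC h ⟨hh, hn⟩
  have hoF : o F = ξ := by
    have hle : o F ≤ ξ := csInf_le' hmemgood
    rcases eq_or_lt_of_le hle with h | h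
    · exact h
    · exfalso
      have hgo : o F ∈ good F := csInf_mem ⟨ξ, hmemgood⟩
      have h1 : fe ∈ cs B U (o F) := cs_anti hle hfe.1
      have h2 : fe ∉ U (cs B U (o F)) := (mem_cs.1 hfe.1).2 _ h
      apply hgo fe h1 h2
      intro p hp
      rw [hfe.2 p.1 (hFS p hp)]
      exact hFf p hp
  have hne : (cs B U (o F) ∩ U (cs B U (o F))).Nonempty := by
    rw [hoF]
    exact ⟨fe, hfe.1, hξ fe hfe⟩
  intro a ha haS
  have hg : g F a = hne.some a := by
    simp only [g, dif_pos hne]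
    rfl
  have h1 : |fe a - hne.some a| ≤ ε := by
    have hUU := (hU _ (hcomp (o F)) ⟨_, hne.some_mem.1⟩).2
    refine hUU fe ?_ _ hne.some_mem a ha
    rw [hoF]
    exact ⟨hfe.1, hξ fe hfe⟩
  have h2 : f a = fe a := by
    have hcl : IsClosed {x : X | f x = fe x} :=
      isClosed_eq f.continuous (WeakDual.toStrongDual fe).continuous
    have hsub : S ⊆ {x : X | f x = fe x} := fun s hs => (hfe.2 s hs).symm
    exact closure_minimal hsub hcl haS
  rw [hg, h2]
  exact h1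

end Pool.Agent.Helper68.WCG
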