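import Mathlib
import Pool.Agent.Helper68.WCG.Gen

/-!
# Systems of functionals, models, and the associated projections
-/

set_option autoImplicit false
set_option linter.style.haveILetI false
set_option linter.unusedSectionVars false

open Set Topology Metric

namespace Pool.Agent.Helper68.WCG

variable {X : Type} [NormedAddCommGroup X] [NormedSpace ℝ X]

/-- Standing hypotheses on a set `A` (closed absolutely convex bounded Asplund set, linearly dense)
and on a linearly dense set `Γ` countably supporting the dual. -/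
structure Good (A Γ : Set X) : Prop where
  closed : IsClosed A
  convex : Convex ℝ A
  symm : ∀ a ∈ A, -a ∈ A
  zero : (0 : X) ∈ A
  bdd : ∃ R : ℝ, ∀ a ∈ A, ‖a‖ ≤ R
  dense : Dense (Submodule.span ℝ A : Set X)
  asp : AspSet A
  dΓ : Dense (Submodule.span ℝ Γ : Set X)
  cΓ : ∀ f : X →L[ℝ] ℝ, {x ∈ Γ | f x ≠ 0}.Countable

/-- A system of functionals and points attached to finite data. -/
structure Sys (A Γ : Set X) where
  Ψ : Finset (X × ℚ × ℚ) → Set (X →L[ℝ] ℝ)
  θ : Finset (X × ℚ × ℚ) → ℕ → X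
  comb : ∀ F, ∃ n, θ F n = ∑ p ∈ F, (p.2.1 : ℝ) • p.1
  supp : ∀ F, ∀ f ∈ Ψ F, ∀ γ ∈ Γ, f γ ≠ 0 → ∃ n, θ F n = γ
  norming : ∀ x, ∃ f ∈ Ψ {(x, 1, 1)}, ‖f‖ ≤ 1 ∧ f x = ‖x‖
  sep : ∀ (x : X) (n : ℕ), Disjoint (ball x (1 / ((n : ℝ) + 1))) A →
    ∃ f ∈ Ψ {(x, 1, 1)}, ∃ u : ℝ, (∀ b ∈ ball x (1 / ((n : ℝ) + 1)), f b < u) ∧ ∀ a ∈ A, u ≤ f a
  approx : ∀ (S : Set X) (f : X →L[ℝ] ℝ) (ε : ℝ), 0 < ε → ∃ F, (∀ p ∈ F, p.1 ∈ S) ∧
    ∃ g ∈ Ψ F, ∀ a ∈ A, a ∈ closure S → |f a - g a| ≤ ε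

theorem exists_sys {A Γ : Set X} (h : Good A Γ) : Nonempty (Sys A Γ) := by
  classical
  -- the combination
  let xx : Finset (X × ℚ × ℚ) → X := fun F => ∑ p ∈ F, (p.2.1 : ℝ) • p.1
  have hxx : ∀ x, xx {(x, 1, 1)} = x := by
    intro x
    simp [xx]
  have h1 : ∀ x : X, ∃ f : X →L[ℝ] ℝ, ‖f‖ ≤ 1 ∧ f x = ‖x‖ := by
    intro x
    obtain ⟨g, hg, hgx⟩ := exists_dual_vector'' ℝ x
    exact ⟨g, hg, by simpa using hgx⟩
  choose nrm hnrm using h1
  have h2 : ∀ (x : X) (n : ℕ), ∃ f : X →L[ℝ] ℝ, Disjoint (ball x (1 / ((n : ℝ) + 1))) A →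
      ∃ u : ℝ, (∀ b ∈ ball x (1 / ((n : ℝ) + 1)), f b < u) ∧ ∀ a ∈ A, u ≤ f a := by
    intro x n
    by_cases hd : Disjoint (ball x (1 / ((n : ℝ) + 1))) A
    · obtain ⟨f, u, hf⟩ := geometric_hahn_banach_open (convex_ball _ _) isOpen_ball h.convex hd
      exact ⟨f, fun _ => ⟨u, hf⟩⟩
    · exact ⟨0, fun h => absurd h hd⟩
  choose sp hsp using h2
  have h3 : ∀ (N k : ℕ), ∃ g : Finset (X × ℚ × ℚ) → (X →L[ℝ] ℝ), ∀ S : Set X,
      ∀ f : X →L[ℝ] ℝ, ‖f‖ ≤ N → ∃ F, (∀ p ∈ F, p.1 ∈ S) ∧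
        ∀ a ∈ A, a ∈ closure S → |f a - g F a| ≤ 1 / ((k : ℝ) + 1) :=
    fun N k => exists_gen h.asp N _ (by positivity)
  choose gg hgg using h3
  let Ψ : Finset (X × ℚ × ℚ) → Set (X →L[ℝ] ℝ) := fun F =>
    {nrm (xx F)} ∪ range (fun n => sp (xx F) n) ∪ range (fun q : ℕ × ℕ => gg q.1 q.2 F)
  have hΨc : ∀ F, (Ψ F).Countable := fun F =>
    ((countable_singleton _).union (countable_range _)).union (countable_range _)
  have h4 : ∀ F, ∃ t : ℕ → X, {xx F} ∪ ⋃ f ∈ Ψ F, {x ∈ Γ | f x ≠ 0} = range t := by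
    intro F
    apply Set.Countable.exists_eq_range
    · exact (countable_singleton _).union ((hΨc F).biUnion fun f _ => h.cΓ f)
    · exact ⟨xx F, Or.inl rfl⟩
  choose θ hθ using h4
  refine ⟨⟨Ψ, θ, ?_, ?_, ?_, ?_, ?_⟩⟩
  · intro F
    have : xx F ∈ range (θ F) := by rw [← hθ F]; exact Or.inl rfl
    exact this
  · intro F f hf γ hγ hne
    have : γ ∈ range (θ F) := by
      rw [← hθ F]
      right
      simp only [mem_iUnion]
      exact ⟨f, hf, hγ, hne⟩
    exact this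
  · intro x
    refine ⟨nrm x, ?_, hnrm x⟩
    left; left
    rw [hxx]
    rfl
  · intro x n hd
    refine ⟨sp x n, ?_, hsp x n hd⟩
    left; right
    rw [hxx]
    exact ⟨n, rfl⟩
  · intro S f ε hε
    obtain ⟨N, hN⟩ := exists_nat_ge ‖f‖
    obtain ⟨k, hk⟩ := exists_nat_one_div_lt hε
    obtain ⟨F, hFS, hF⟩ := hgg N k S f hN
    refine ⟨F, hFS, gg N k F, ?_, fun a ha haS => (hF a ha haS).trans hk.le⟩
    right
    exact ⟨(N, k), rfl⟩

variable {A Γ : Set X}

/-- The functionals of a model. -/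
def Sys.D (s : Sys A Γ) (C : Set X) : Set (X →L[ℝ] ℝ) :=
  {f | ∃ F : Finset (X × ℚ × ℚ), (∀ p ∈ F, p.1 ∈ C) ∧ f ∈ s.Ψ F}

theorem Sys.D_mono (s : Sys A Γ) {C C' : Set X} (h : C ⊆ C') : s.D C ⊆ s.D C' := by
  rintro f ⟨F, hF, hf⟩
  exact ⟨F, fun p hp => h (hF p hp), hf⟩

theorem Sys.D_iUnion (s : Sys A Γ) {C : ℕ → Set X} (hC : Monotone C) {f : X →L[ℝ] ℝ}
    (hf : f ∈ s.D (⋃ n, C n)) : ∃ n, f ∈ s.D (C n) := by
  obtain ⟨F, hF, hf⟩ := hf
  obtain ⟨k, hk⟩ := exists_bound hC F hF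
  exact ⟨k, F, hk, hf⟩

section model

variable (s : Sys A Γ) {C : Set X} (hC : Closed s.θ C)

include hC

theorem comb_mem {F : Finset (X × ℚ × ℚ)} (hF : ∀ p ∈ F, p.1 ∈ C) :
    ∑ p ∈ F, (p.2.1 : ℝ) • p.1 ∈ C := by
  obtain ⟨n, hn⟩ := s.comb F
  rw [← hn]
  exact hC F hF n

theorem zero_mem' : (0 : X) ∈ C := by
  have := comb_mem s hC (F := ∅) (by simp)
  simpa using this

theorem smul_mem' (q : ℚ) {x : X} (hx : x ∈ C) : (q : ℝ) • x ∈ C := by
  have := comb_mem s hC (F := {(x, q, 0)}) (by simpa using hx)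
  simpa using this

theorem add_mem' {x y : X} (hx : x ∈ C) (hy : y ∈ C) : x + y ∈ C := by
  classical
  by_cases hxy : x = y
  · subst hxy
    have := smul_mem' s hC 2 hx
    rw [← two_smul ℝ x]
    simpa using this
  · have := comb_mem s hC (F := {(x, 1, 0), (y, 1, 0)}) (by
      intro p hp
      simp only [Finset.mem_insert, Finset.mem_singleton] at hp
      rcases hp with rfl | rfl
      · exact hx
      · exact hy)
    rw [Finset.sum_pair (by simpa using hxy)] at this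
    simpa using this

/-- The closed subspace of a model. -/
def V : Submodule ℝ X where
  carrier := closure C
  add_mem' := by
    intro a b ha hb
    exact map_mem_closure₂ continuous_add ha hb fun a ha b hb => add_mem' s hC ha hb
  zero_mem' := subset_closure (zero_mem' s hC)
  smul_mem' := by
    intro c x hx
    have hc : c ∈ closure (range ((↑) : ℚ → ℝ)) := Rat.isDenseEmbedding_coe_real.dense c
    refine map_mem_closure₂ (f := fun (c : ℝ) (x : X) => c • x) continuous_smul hc hx ?_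
    rintro _ ⟨q, rfl⟩ b hb
    exact smul_mem' s hC q hb

omit hC in
/-- The annihilator of the functionals of a model. -/
def Wk (C : Set X) : Submodule ℝ X where
  carrier := {x | ∀ f ∈ s.D C, f x = 0}
  add_mem' := by
    intro a b ha hb f hf
    rw [map_add, ha f hf, hb f hf, add_zero]
  zero_mem' := fun f _ => map_zero f
  smul_mem' := by
    intro c x hx f hf
    rw [map_smul, hx f hf, smul_zero]

omit hC in
theorem isClosed_Wk (C : Set X) : IsClosed (Wk s C : Set X) := by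
  have : (Wk s C : Set X) = ⋂ f ∈ s.D C, {x : X | f x = 0} := by
    ext x
    simp [Wk]
  rw [this]
  exact isClosed_biInter fun f _ => isClosed_eq f.continuous continuous_const

theorem norm_le_add {v w : X} (hv : v ∈ closure C) (hw : w ∈ Wk s C) : ‖v‖ ≤ ‖v + w‖ := by
  have hcl : IsClosed {v : X | ‖v‖ ≤ ‖v + w‖} :=
    isClosed_le continuous_norm (continuous_norm.comp (continuous_id.add continuous_const))
  refine closure_minimal (fun x hx => ?_) hcl hv
  obtain ⟨f, hf, hf1, hfx⟩ := s.norming x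
  have hfD : f ∈ s.D C := ⟨_, by simpa using hx, hf⟩
  have h1 : f (x + w) = ‖x‖ := by
    rw [map_add, hw f hfD, add_zero, hfx]
  show ‖x‖ ≤ ‖x + w‖
  calc ‖x‖ = f (x + w) := h1.symm
    _ ≤ ‖f (x + w)‖ := Real.le_norm_self _
    _ ≤ ‖f‖ * ‖x + w‖ := f.le_opNorm _
    _ ≤ 1 * ‖x + w‖ := by gcongr
    _ = ‖x + w‖ := one_mul _

theorem isCompl [CompleteSpace X] (hG : Good A Γ) : IsCompl (V s hC) (Wk s C) := by
  have hVc : IsClosed (V s hC : Set X) := isClosed_closure
  have hWc : IsClosed (Wk s C : Set X) := isClosed_Wk s C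
  constructor
  · rw [Submodule.disjoint_def]
    intro x hx hxw
    have := norm_le_add s hC hx (Submodule.neg_mem _ hxw)
    rw [add_neg_cancel, norm_zero] at this
    exact norm_le_zero_iff.1 this
  · rw [codisjoint_iff]
    -- closedness of the sum
    haveI : CompleteSpace (V s hC) := hVc.completeSpace_coe
    haveI : CompleteSpace (Wk s C) := hWc.completeSpace_coe
    let φ : (V s hC × Wk s C) →L[ℝ] X := (V s hC).subtypeL.coprod (Wk s C).subtypeL
    have hφ : ∀ p, φ p = (p.1 : X) + (p.2 : X) := fun p => by simp [φ]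
    have hanti : AntilipschitzWith 2 φ := by
      apply φ.antilipschitz_of_bound
      intro p
      have h1 : ‖(p.1 : X)‖ ≤ ‖φ p‖ := by
        rw [hφ]
        exact norm_le_add s hC p.1.2 p.2.2
      have h2 : ‖(p.2 : X)‖ ≤ 2 * ‖φ p‖ := by
        have : (p.2 : X) = φ p - p.1 := by rw [hφ]; abel
        rw [this]
        calc ‖φ p - (p.1 : X)‖ ≤ ‖φ p‖ + ‖(p.1 : X)‖ := norm_sub_le _ _
          _ ≤ 2 * ‖φ p‖ := by linarith
      rw [Prod.norm_def]
      refine max_le ?_ ?_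
      · calc ‖p.1‖ = ‖(p.1 : X)‖ := rfl
          _ ≤ ‖φ p‖ := h1
          _ ≤ 2 * ‖φ p‖ := by linarith [norm_nonneg (φ p)]
      · exact h2
    have hcl : IsClosed (range φ) := hanti.isClosed_range φ.uniformContinuous
    have hrange : range φ = (V s hC ⊔ Wk s C : Submodule ℝ X) := by
      ext x
      rw [SetLike.mem_coe, Submodule.mem_sup]
      constructor
      · rintro ⟨p, rfl⟩
        exact ⟨p.1, p.1.2, p.2, p.2.2, (hφ p).symm⟩
      · rintro ⟨v, hv, w, hw, rfl⟩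
        exact ⟨(⟨v, hv⟩, ⟨w, hw⟩), hφ _⟩
    rw [hrange] at hcl
    have hΓ : Submodule.span ℝ Γ ≤ V s hC ⊔ Wk s C := by
      rw [Submodule.span_le]
      intro γ hγ
      by_cases hex : ∃ f ∈ s.D C, f γ ≠ 0
      · obtain ⟨f, ⟨F, hF, hf⟩, hne⟩ := hex
        obtain ⟨n, hn⟩ := s.supp F f hf γ hγ hne
        have : γ ∈ C := by rw [← hn]; exact hC F hF n
        exact Submodule.mem_sup_left (subset_closure this)
      · push Not at hex
        exact Submodule.mem_sup_right hex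
    rw [eq_top_iff]
    intro x _
    have hx := hG.dΓ x
    exact closure_minimal (fun y hy => hΓ hy) hcl hx

/-- The projection of a model exists. -/
theorem exists_proj [CompleteSpace X] (hG : Good A Γ) :
    ∃ P : X →L[ℝ] X, (∀ x, P x ∈ closure C) ∧ (∀ x ∈ closure C, P x = x) ∧
      (∀ f ∈ s.D C, ∀ x, f (P x) = f x) ∧
      (∀ x, (∀ f ∈ s.D C, f x = 0) → P x = 0) ∧ (∀ x, ‖P x‖ ≤ ‖x‖) ∧
      (∀ a ∈ A, P a ∈ A) ∧
      (∀ f : X →L[ℝ] ℝ, ∀ ε > 0, ∃ g ∈ s.D C, ∀ a ∈ A, |f (P a) - g a| ≤ ε) := by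
  have hcompl := isCompl s hC hG
  let P0 : X →ₗ[ℝ] X := (V s hC).projection (Wk s C) hcompl
  have hker : ∀ x, x - P0 x ∈ Wk s C := by
    intro x
    have := Submodule.projection_eq_self_sub_projection hcompl x
    rw [← this]
    exact Submodule.projection_apply_mem _ _
  have hmem : ∀ x, P0 x ∈ closure C := fun x => Submodule.projection_apply_mem hcompl x
  have hnorm : ∀ x, ‖P0 x‖ ≤ 1 * ‖x‖ := by
    intro x
    have := norm_le_add s hC (hmem x) (hker x)
    rwa [add_sub_cancel, ← one_mul ‖x‖] at this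
  let P : X →L[ℝ] X := P0.mkContinuous 1 hnorm
  have hP : ∀ x, P x = P0 x := fun x => rfl
  have hD : ∀ f ∈ s.D C, ∀ x, f (P x) = f x := by
    intro f hf x
    have := hker x f hf
    rw [map_sub, sub_eq_zero] at this
    exact this.symm
  have hid : ∀ x ∈ closure C, P x = x := fun x hx =>
    Submodule.projection_apply_of_mem_left hcompl hx
  have hA : ∀ a ∈ A, P a ∈ A := by
    intro a ha
    by_contra hPa
    obtain ⟨r, hr, hball⟩ := Metric.isOpen_iff.1 hG.closed.isOpen_compl _ hPa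
    obtain ⟨n, hn⟩ := exists_nat_one_div_lt (half_pos hr)
    have hcl : P a ∈ closure C := hmem a
    obtain ⟨x, hxC, hx⟩ := Metric.mem_closure_iff.1 hcl (1 / ((n : ℝ) + 1)) (by positivity)
    have hdisj : Disjoint (ball x (1 / ((n : ℝ) + 1))) A := by
      rw [Set.disjoint_left]
      intro b hb hbA
      have : b ∈ ball (P a) r := by
        rw [mem_ball] at hb ⊢
        calc dist b (P a) ≤ dist b x + dist x (P a) := dist_triangle _ _ _
          _ < r / 2 + r / 2 := by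
            rw [dist_comm x]
            linarith
          _ = r := by ring
      exact hball this hbA
    obtain ⟨f, hf, u, hu1, hu2⟩ := s.sep x n hdisj
    have hfD : f ∈ s.D C := ⟨_, by simpa using hxC, hf⟩
    have h1 := hu1 (P a) (by rw [mem_ball]; exact hx)
    have h2 := hu2 a ha
    rw [hD f hfD] at h1
    linarith
  refine ⟨P, hmem, hid, hD, ?_, ?_, hA, ?_⟩
  · intro x hx
    exact Submodule.projection_apply_of_mem_right hcompl hx
  · intro x
    have := hnorm x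
    rwa [one_mul] at this
  · intro f ε hε
    obtain ⟨F, hFC, g, hg, hfg⟩ := s.approx C f ε hε
    have hgD : g ∈ s.D C := ⟨F, hFC, hg⟩
    refine ⟨g, hgD, fun a ha => ?_⟩
    have := hfg (P a) (hA a ha) (hmem a)
    rwa [hD g hgD] at this

end model

end Pool.Agent.Helper68.WCG
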