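import Mathlib
import Pool.Agent.Helper68.WCG.Model

/-!
# Weak compactness of unions, images, and the separable case
-/

set_option autoImplicit false
set_option linter.style.haveILetI false
set_option linter.unusedSectionVars false

open Set Topology Metric Filter

namespace Pool.Agent.Helper68.WCG

variable {X : Type} [NormedAddCommGroup X] [NormedSpace ℝ X]

theorem weak_nhds {U : Set (WeakSpace ℝ X)} (hU : U ∈ 𝓝 (0 : WeakSpace ℝ X)) :
    ∃ (t : Finset (X →L[ℝ] ℝ)) (ε : ℝ), 0 < ε ∧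
      ∀ x : X, (∀ f ∈ t, |f x| < ε) → toWeakSpace ℝ X x ∈ U := by
  let g : WeakSpace ℝ X → ((X →L[ℝ] ℝ) → ℝ) := fun x f => (topDualPairing ℝ X).flip x f
  have h1 : 𝓝 (0 : WeakSpace ℝ X) = Filter.comap g (𝓝 (g 0)) := nhds_induced g 0
  rw [h1, mem_comap] at hU
  obtain ⟨V, hV, hVU⟩ := hU
  rw [nhds_pi, Filter.mem_pi] at hV
  obtain ⟨I, hI, t, ht, htV⟩ := hV
  have hg0 : ∀ f, g 0 f = 0 := fun f => map_zero f
  have h2 : ∀ f : X →L[ℝ] ℝ, ∃ ε : ℝ, 0 < ε ∧ ball 0 ε ⊆ t f := by
    intro f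
    have := ht f
    rw [hg0] at this
    exact Metric.mem_nhds_iff.1 this
  choose e he0 he using h2
  classical
  obtain ⟨ε, hε, hεle⟩ : ∃ ε : ℝ, 0 < ε ∧ ∀ f ∈ hI.toFinset, ε ≤ e f := by
    rcases hI.toFinset.eq_empty_or_nonempty with h | h
    · exact ⟨1, one_pos, by simp [h]⟩
    · obtain ⟨f0, hf0, hmin⟩ := hI.toFinset.exists_min_image e h
      exact ⟨e f0, he0 f0, hmin⟩
  refine ⟨hI.toFinset, ε, hε, fun x hx => hVU ?_⟩
  apply htV
  intro f hf
  apply he f
  rw [mem_ball_zero_iff, Real.norm_eq_abs]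
  have hfin : f ∈ hI.toFinset := by simpa using hf
  exact (hx f hfin).trans_le (hεle f hfin)

/-- A union of compact sets shrinking to a point is compact. -/
theorem compact_union {W ι : Type*} [TopologicalSpace W] (x0 : W) (K : ι → Set W)
    (hK : ∀ i, IsCompact (K i)) (h : ∀ U ∈ 𝓝 x0, {i | ¬ K i ⊆ U}.Finite) :
    IsCompact ({x0} ∪ ⋃ i, K i) := by
  rw [isCompact_iff_ultrafilter_le_nhds]
  intro F hF
  by_cases hx : (F : Filter W) ≤ 𝓝 x0
  · exact ⟨x0, Or.inl rfl, hx⟩
  · rw [Filter.not_le] at hx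
    obtain ⟨U, hU, hUF⟩ := hx
    have hUc : Uᶜ ∈ (F : Filter W) := Ultrafilter.compl_mem_iff_notMem.2 hUF
    have hfin := h U hU
    have hcomp : IsCompact (⋃ i ∈ {i | ¬ K i ⊆ U}, K i) := hfin.isCompact_biUnion fun i _ => hK i
    have hmem : (⋃ i ∈ {i | ¬ K i ⊆ U}, K i) ∈ (F : Filter W) := by
      filter_upwards [hUc, le_principal_iff.1 hF] with y hy1 hy2
      rcases hy2 with rfl | hy2
      · exact absurd (mem_of_mem_nhds hU) hy1
      · obtain ⟨i, hi⟩ := mem_iUnion.1 hy2
        simp only [mem_iUnion]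
        exact ⟨i, fun hsub => hy1 (hsub hi), hi⟩
    obtain ⟨y, hy, hle⟩ := isCompact_iff_ultrafilter_le_nhds.1 hcomp F (le_principal_iff.2 hmem)
    refine ⟨y, ?_, hle⟩
    right
    simp only [mem_iUnion] at hy
    obtain ⟨i, -, hi⟩ := hy
    exact mem_iUnion.2 ⟨i, hi⟩

/-- Images of weakly compact sets are weakly compact. -/
theorem weak_image {Y : Type} [NormedAddCommGroup Y] [NormedSpace ℝ Y] (f : X →L[ℝ] Y)
    {K : Set X} (hK : IsCompact (toWeakSpace ℝ X '' K)) :
    IsCompact (toWeakSpace ℝ Y '' (f '' K)) := by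
  have : toWeakSpace ℝ Y '' (f '' K) = WeakSpace.map f '' (toWeakSpace ℝ X '' K) := by
    rw [image_image, image_image]
    rfl
  rw [this]
  exact hK.image (WeakSpace.map f).continuous

/-- Norm compact sets are weakly compact. -/
theorem weak_of_norm {K : Set X} (hK : IsCompact K) : IsCompact (toWeakSpace ℝ X '' K) := by
  have : toWeakSpace ℝ X '' K = toWeakSpaceCLM ℝ X '' K := rfl
  rw [this]
  exact hK.image (toWeakSpaceCLM ℝ X).continuous

theorem AspSet.image {Y : Type} [NormedAddCommGroup Y] [NormedSpace ℝ Y] {A : Set X}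
    (hA : AspSet A) (R : X →L[ℝ] Y) : AspSet (closure (R '' A)) := by
  intro S hS hSc
  -- approximate S by images of a countable subset of A
  have h1 : ∀ s ∈ S, ∃ T : Set X, T ⊆ A ∧ T.Countable ∧ s ∈ closure (R '' T) := by
    intro s hs
    have hs' := hS hs
    rw [mem_closure_iff_seq_limit] at hs'
    obtain ⟨x, hx, hlim⟩ := hs'
    choose a ha hax using hx
    refine ⟨range a, ?_, countable_range a, ?_⟩
    · rintro _ ⟨n, rfl⟩
      exact ha n
    · rw [mem_closure_iff_seq_limit]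
      exact ⟨x, fun n => ⟨a n, ⟨n, rfl⟩, hax n⟩, hlim⟩
  choose! T hTA hTc hT using h1
  let S0 : Set X := ⋃ s ∈ S, T s
  have hS0A : S0 ⊆ A := iUnion₂_subset hTA
  have hS0c : S0.Countable := hSc.biUnion hTc
  have hS0 : S ⊆ closure (R '' S0) := by
    intro s hs
    refine closure_mono (image_mono ?_) (hT s hs)
    exact subset_biUnion_of_mem hs
  obtain ⟨Z, hZc, hZ⟩ := hA S0 hS0A hS0c
  -- choose functionals on Y
  have h2 : ∀ (z : X →L[ℝ] ℝ) (n : ℕ), ∃ h : Y →L[ℝ] ℝ,
      (∃ h' : Y →L[ℝ] ℝ, ∀ a ∈ S0, |h' (R a) - z a| ≤ 1 / ((n : ℝ) + 1)) →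
        ∀ a ∈ S0, |h (R a) - z a| ≤ 1 / ((n : ℝ) + 1) := by
    intro z n
    by_cases hex : ∃ h' : Y →L[ℝ] ℝ, ∀ a ∈ S0, |h' (R a) - z a| ≤ 1 / ((n : ℝ) + 1)
    · obtain ⟨h, hh⟩ := hex
      exact ⟨h, fun _ => hh⟩
    · exact ⟨0, fun h => absurd h hex⟩
  choose H hH using h2
  refine ⟨⋃ z ∈ Z, range (H z), hZc.biUnion fun z _ => countable_range _, ?_⟩
  intro f ε hε
  obtain ⟨n, hn⟩ := exists_nat_one_div_lt (half_pos hε)
  obtain ⟨z, hz, hfz⟩ := hZ (f.comp R) (1 / ((n : ℝ) + 1)) (by positivity)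
  have h3 := hH z n ⟨f, hfz⟩
  refine ⟨H z n, ?_, ?_⟩
  · simp only [mem_iUnion]
    exact ⟨z, hz, n, rfl⟩
  · intro y hy
    have hcl : IsClosed {y : Y | |f y - H z n y| ≤ ε} :=
      isClosed_le ((f.continuous.sub (H z n).continuous).abs) continuous_const
    refine closure_minimal ?_ hcl (hS0 hy)
    rintro _ ⟨a, ha, rfl⟩
    have h4 := hfz a ha
    have h5 := h3 a ha
    show |f (R a) - H z n (R a)| ≤ ε
    have h6 : (f.comp R) a = f (R a) := rfl
    rw [h6] at h4
    calc |f (R a) - H z n (R a)| = |(f (R a) - z a) - (H z n (R a) - z a)| := by ring_nf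
      _ ≤ |f (R a) - z a| + |H z n (R a) - z a| := abs_sub _ _
      _ ≤ ε := by linarith

/-- Transfer of the standing hypotheses to a quotient-like image. -/
theorem Good.image {Y : Type} [NormedAddCommGroup Y] [NormedSpace ℝ Y] {A Γ : Set X}
    (hG : Good A Γ) (R : X →L[ℝ] Y) (hR : DenseRange R) :
    Good (closure (R '' A)) (R '' Γ) where
  closed := isClosed_closure
  convex := (hG.convex.linear_image R.toLinearMap).closure
  symm := by
    intro a ha
    have hsub : closure (R '' A) ⊆ (fun y : Y => -y) ⁻¹' closure (R '' A) := by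
      refine closure_minimal ?_ (isClosed_closure.preimage continuous_neg)
      rintro _ ⟨a, ha, rfl⟩
      show -(R a) ∈ closure (R '' A)
      rw [← map_neg]
      exact subset_closure ⟨-a, hG.symm a ha, rfl⟩
    exact hsub ha
  zero := subset_closure ⟨0, hG.zero, map_zero R⟩
  bdd := by
    obtain ⟨r, hr⟩ := hG.bdd
    refine ⟨‖R‖ * r, fun a ha => ?_⟩
    refine closure_minimal ?_ (isClosed_le continuous_norm continuous_const) ha
    rintro _ ⟨a, ha, rfl⟩
    show ‖R a‖ ≤ ‖R‖ * r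
    exact (R.le_opNorm a).trans (by gcongr; exact hr a ha)
  dense := by
    have h1 : Dense (R '' (Submodule.span ℝ A : Set X)) := hR.dense_image R.continuous hG.dense
    refine h1.mono ?_
    rintro _ ⟨x, hx, rfl⟩
    have h2 : (Submodule.span ℝ A).map R.toLinearMap ≤ Submodule.span ℝ (closure (R '' A)) := by
      rw [Submodule.map_span]
      exact Submodule.span_mono subset_closure
    exact h2 ⟨x, hx, rfl⟩
  asp := hG.asp.image R
  dΓ := by
    have h1 : Dense (R '' (Submodule.span ℝ Γ : Set X)) := hR.dense_image R.continuous hG.dΓ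
    refine h1.mono ?_
    rintro _ ⟨x, hx, rfl⟩
    have h2 : (Submodule.span ℝ Γ).map R.toLinearMap ≤ Submodule.span ℝ (R '' Γ) := by
      rw [Submodule.map_span]
      rfl
    exact h2 ⟨x, hx, rfl⟩
  cΓ := by
    intro f
    refine ((hG.cΓ (f.comp R)).image R).mono ?_
    rintro _ ⟨⟨γ, hγ, rfl⟩, hne⟩
    exact ⟨γ, ⟨hγ, hne⟩, rfl⟩

/-- The separable case. -/
theorem separable_case {A Γ : Set X} (hG : Good A Γ) (hsep : TopologicalSpace.SeparableSpace X) :
    ∃ K ⊆ A, IsCompact (toWeakSpace ℝ X '' K) ∧ Dense (Submodule.span ℝ K : Set X) := by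
  obtain ⟨T, hTA, hTc, hT⟩ :=
    (TopologicalSpace.IsSeparable.of_separableSpace A).exists_countable_dense_subset
  obtain ⟨a, ha⟩ := (hTc.insert 0).exists_eq_range (insert_nonempty 0 T)
  have haA : ∀ n, a n ∈ A := by
    intro n
    have : a n ∈ insert 0 T := by rw [ha]; exact ⟨n, rfl⟩
    rcases this with h | h
    · rw [h]; exact hG.zero
    · exact hTA h
  let b : ℕ → X := fun n => (1 / ((n : ℝ) + 1)) • a n
  obtain ⟨r, hr⟩ := hG.bdd
  have hb : Tendsto b atTop (𝓝 0) := by
    rw [tendsto_zero_iff_norm_tendsto_zero]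
    have h1 : Tendsto (fun n : ℕ => (1 / ((n : ℝ) + 1)) * r) atTop (𝓝 0) := by
      have := (tendsto_one_div_add_atTop_nhds_zero_nat (𝕜 := ℝ)).mul_const r
      rwa [zero_mul] at this
    refine squeeze_zero (fun _ => norm_nonneg _) (fun n => ?_) h1
    rw [norm_smul, Real.norm_of_nonneg (by positivity)]
    gcongr
    exact hr _ (haA n)
  refine ⟨insert 0 (range b), ?_, weak_of_norm hb.isCompact_insert_range, ?_⟩
  · rintro x (rfl | ⟨n, rfl⟩)
    · exact hG.zero
    · apply hG.convex.smul_mem_of_zero_mem hG.zero (haA n)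
      constructor
      · positivity
      · rw [div_le_one (by positivity)]
        linarith [(Nat.cast_nonneg n : (0 : ℝ) ≤ n)]
  · -- the closed span contains A
    have h1 : ∀ n, a n ∈ Submodule.span ℝ (insert 0 (range b)) := by
      intro n
      have h2 : b n ∈ Submodule.span ℝ (insert 0 (range b)) :=
        Submodule.subset_span (Or.inr ⟨n, rfl⟩)
      have h3 : a n = ((n : ℝ) + 1) • b n := by
        simp only [b]
        rw [smul_smul, mul_one_div_cancel (by positivity), one_smul]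
      rw [h3]
      exact Submodule.smul_mem _ _ h2
    have h4 : A ⊆ ((Submodule.span ℝ (insert 0 (range b))).topologicalClosure : Set X) := by
      refine hT.trans ?_
      rw [Submodule.topologicalClosure_coe]
      refine closure_mono fun x hx => ?_
      have : x ∈ range a := by rw [← ha]; exact Or.inr hx
      obtain ⟨n, rfl⟩ := this
      exact h1 n
    have h5 : Submodule.span ℝ A ≤ (Submodule.span ℝ (insert 0 (range b))).topologicalClosure :=
      Submodule.span_le.2 h4
    intro x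
    have hx := hG.dense x
    have := closure_minimal (fun y hy => h5 hy)
      (Submodule.isClosed_topologicalClosure _) hx
    rwa [Submodule.topologicalClosure_coe] at this

end Pool.Agent.Helper68.WCG
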