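import Mathlib
import Pool.Agent.Helper68.WCG.Weak

/-!
# The induction on density
-/

set_option autoImplicit false
set_option linter.style.haveILetI false
set_option linter.unusedSectionVars false

open Set Topology Metric Filter Cardinal

namespace Pool.Agent.Helper68.WCG

/-- The conclusion for spaces of density at most `κ`. -/
def Concl (κ : Cardinal.{0}) : Prop :=
  ∀ (X : Type) [NormedAddCommGroup X] [NormedSpace ℝ X] [CompleteSpace X] (A Γ : Set X),
    Good A Γ → (∃ E : Set X, Dense E ∧ #E ≤ κ) →
    ∃ K ⊆ A, IsCompact (toWeakSpace ℝ X '' K) ∧ Dense (Submodule.span ℝ K : Set X)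

variable {X : Type} [NormedAddCommGroup X] [NormedSpace ℝ X]

/-- The piece attached to an operator with small range. -/
theorem piece {κ : Cardinal.{0}} (IH : ∀ κ' < κ, Concl κ') [CompleteSpace X] {A Γ : Set X}
    (hG : Good A Γ) (Q : X →L[ℝ] X) (C : Set X) (hC : #C < κ)
    (hQC : ∀ x, Q x ∈ closure (Q '' C)) :
    ∃ K : Set X, K ⊆ closure (Q '' A) ∧ IsCompact (toWeakSpace ℝ X '' K) ∧
      ∀ x, Q x ∈ closure (Submodule.span ℝ K : Set X) := by
  let Y : Submodule ℝ X := Q.range.topologicalClosure
  have hYc : IsClosed (Y : Set X) := Submodule.isClosed_topologicalClosure _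
  haveI : CompleteSpace Y := hYc.completeSpace_coe
  have hmem : ∀ x, Q x ∈ Y := fun x => Submodule.le_topologicalClosure _ ⟨x, rfl⟩
  let R : X →L[ℝ] Y := Q.codRestrict Y hmem
  have hRQ : ∀ x, ((R x : Y) : X) = Q x := fun x => rfl
  have hemb : IsEmbedding (Subtype.val : Y → X) := IsEmbedding.subtypeVal
  -- closure transfer
  have hcl : ∀ (S : Set X) (y : Y), (y : X) ∈ closure (Q '' S) → y ∈ closure (R '' S) := by
    intro S y hy
    rw [hemb.closure_eq_preimage_closure_image]
    show (y : X) ∈ closure (Subtype.val '' (R '' S))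
    have : (Subtype.val '' (R '' S) : Set X) = Q '' S := by
      rw [image_image]
      rfl
    rw [this]
    exact hy
  have hRd : DenseRange R := by
    intro y
    have hy : (y : X) ∈ closure (Q '' univ) := by
      have := y.2
      rw [← SetLike.mem_coe, Submodule.topologicalClosure_coe] at this
      rw [image_univ]
      exact this
    have := hcl univ y hy
    rwa [image_univ] at this
  have hGY := hG.image R hRd
  have hdens : Dense (R '' C) := by
    intro y
    apply hcl
    have hy : (y : X) ∈ closure (Q '' univ) := by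
      have := y.2
      rw [← SetLike.mem_coe, Submodule.topologicalClosure_coe] at this
      rw [image_univ]
      exact this
    refine closure_minimal ?_ isClosed_closure hy
    rintro _ ⟨x, -, rfl⟩
    exact hQC x
  obtain ⟨K, hKA, hKc, hKd⟩ := IH _ hC Y _ _ hGY ⟨R '' C, hdens, mk_image_le⟩
  refine ⟨Y.subtypeL '' K, ?_, weak_image _ hKc, ?_⟩
  · rintro _ ⟨y, hy, rfl⟩
    have h1 := hKA hy
    rw [hemb.closure_eq_preimage_closure_image] at h1
    have h2 : (y : X) ∈ closure (Subtype.val '' (R '' A)) := h1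
    have : (Subtype.val '' (R '' A) : Set X) = Q '' A := by
      rw [image_image]
      rfl
    rw [this] at h2
    exact h2
  · intro x
    have h1 := hKd (R x)
    rw [hemb.closure_eq_preimage_closure_image] at h1
    have h2 : (Q x) ∈ closure (Subtype.val '' (Submodule.span ℝ K : Set Y)) := h1
    refine closure_mono ?_ h2
    rintro _ ⟨y, hy, rfl⟩
    have h3 : (Submodule.span ℝ K).map Y.subtypeL.toLinearMap ≤
        Submodule.span ℝ (Y.subtypeL '' K) := by
      rw [Submodule.map_span]
      rfl
    exact h3 ⟨y, hy, rfl⟩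

theorem closed_iUnion {θ : Finset (X × ℚ × ℚ) → ℕ → X} {C : ℕ → Set X} (hC : Monotone C)
    (h : ∀ n, Closed θ (C n)) : Closed θ (⋃ n, C n) := by
  intro F hF n
  obtain ⟨k, hk⟩ := exists_bound hC F hF
  exact mem_iUnion.2 ⟨k, h k F hk n⟩

theorem main_step {κ : Cardinal.{0}} (hκ : ℵ₀ < κ) (IH : ∀ κ' < κ, Concl κ') [CompleteSpace X]
    {A Γ : Set X} (hG : Good A Γ) (E : Set X) (hEd : Dense E) (hE : #E = κ) :
    ∃ K ⊆ A, IsCompact (toWeakSpace ℝ X '' K) ∧ Dense (Submodule.span ℝ K : Set X) := by
  classical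
  obtain ⟨s⟩ := exists_sys hG
  have hexP : ∀ C : Set X, ∃ P : X →L[ℝ] X, Closed s.θ C →
      ((∀ x, P x ∈ closure C) ∧ (∀ x ∈ closure C, P x = x) ∧
      (∀ f ∈ s.D C, ∀ x, f (P x) = f x) ∧
      (∀ x, (∀ f ∈ s.D C, f x = 0) → P x = 0) ∧ (∀ x, ‖P x‖ ≤ ‖x‖) ∧
      (∀ a ∈ A, P a ∈ A) ∧
      (∀ f : X →L[ℝ] ℝ, ∀ ε > 0, ∃ g ∈ s.D C, ∀ a ∈ A, |f (P a) - g a| ≤ ε)) := by
    intro C
    by_cases hC : Closed s.θ C
    · obtain ⟨P, hP⟩ := exists_proj s hC hG
      exact ⟨P, fun _ => hP⟩
    · exact ⟨0, fun h => absurd h hC⟩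
  choose P hP using hexP
  -- compatibility
  have hPP : ∀ C C' : Set X, Closed s.θ C → Closed s.θ C' → C ⊆ C' → ∀ x, P C (P C' x) = P C x := by
    intro C C' hC hC' hsub x
    obtain ⟨-, -, -, h4, -⟩ := hP C hC
    obtain ⟨-, -, h3', -⟩ := hP C' hC'
    have : P C (P C' x - x) = 0 := by
      apply h4
      intro f hf
      rw [map_sub, h3' f (s.D_mono hsub hf), sub_self]
    rwa [map_sub, sub_eq_zero] at this
  have hPP' : ∀ C C' : Set X, Closed s.θ C → Closed s.θ C' → C ⊆ C' → ∀ x, P C' (P C x) = P C x := by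
    intro C C' hC hC' hsub x
    obtain ⟨h1, -⟩ := hP C hC
    obtain ⟨-, h2', -⟩ := hP C' hC'
    exact h2' _ (closure_mono hsub (h1 x))
  -- the well order
  obtain ⟨r, wo, hr⟩ := Cardinal.exists_ord_eq E
  let Io : E → Set X := fun e => {x | ∃ e' : E, r e' e ∧ x = e'.1}
  let Ic : E → Set X := fun e => insert e.1 (Io e)
  let M : E → Set X := fun e => cl s.θ (Io e)
  let M' : E → Set X := fun e => cl s.θ (Ic e)
  have hM : ∀ e, Closed s.θ (M e) := fun e => closed_cl _
  have hM' : ∀ e, Closed s.θ (M' e) := fun e => closed_cl _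
  have hM0 : Closed s.θ (cl s.θ (∅ : Set X)) := closed_cl _
  have hMM' : ∀ e, M e ⊆ M' e := fun e => cl_mono (subset_insert _ _)
  have hIc : ∀ e e', r e e' → Ic e ⊆ Io e' := by
    intro e e' h x hx
    rcases hx with rfl | ⟨e'', he'', rfl⟩
    · exact ⟨e, h, rfl⟩
    · exact ⟨e'', IsTrans.trans _ _ _ he'' h, rfl⟩
  have hcardIo : ∀ e, #(Io e) < κ := by
    intro e
    have h1 : #(Io e) ≤ #{e' : E // r e' e} := by
      let φ : {e' : E // r e' e} → Io e := fun p => ⟨p.1.1, p.1, p.2, rfl⟩
      have hφ : Function.Surjective φ := by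
        rintro ⟨x, e', he', rfl⟩
        exact ⟨⟨e', he'⟩, rfl⟩
      exact mk_le_of_surjective hφ
    have h2 : #{e' : E // r e' e} < #E := by
      have := Cardinal.card_typein_lt e hr
      rwa [Ordinal.card_typein] at this
    rw [← hE]
    exact h1.trans_lt h2
  have hcardM' : ∀ e, #(M' e) < κ := by
    intro e
    refine (mk_cl_le _).trans_lt ?_
    refine max_lt ?_ hκ
    refine (mk_insert_le).trans_lt ?_
    exact add_lt_of_lt hκ.le (hcardIo e) (one_lt_aleph0.trans hκ)
  have hcardM0 : #(cl s.θ (∅ : Set X)) < κ := by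
    refine (mk_cl_le _).trans_lt ?_
    refine max_lt ?_ hκ
    simp only [mk_eq_zero]
    exact aleph0_pos.trans hκ
  -- the pieces
  let Q : Option E → (X →L[ℝ] X) := fun o => match o with
    | none => P (cl s.θ ∅)
    | some e => P (M' e) - P (M e)
  let C : Option E → Set X := fun o => match o with
    | none => cl s.θ ∅
    | some e => M' e
  have hCc : ∀ o, #(C o) < κ := by
    rintro (_ | e)
    · exact hcardM0
    · exact hcardM' e
  have hQC : ∀ o x, Q o x ∈ closure (Q o '' C o) := by
    rintro (_ | e) x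
    · obtain ⟨h1, h2, -⟩ := hP _ hM0
      have h3 : P (cl s.θ ∅) x ∈ closure (cl s.θ (∅ : Set X)) := h1 x
      have h4 : P (cl s.θ ∅) (P (cl s.θ ∅) x) = P (cl s.θ ∅) x := h2 _ h3
      show P (cl s.θ ∅) x ∈ closure (P (cl s.θ ∅) '' (cl s.θ ∅))
      rw [← h4]
      exact (image_closure_subset_closure_image (P (cl s.θ ∅)).continuous) ⟨_, h3, rfl⟩
    · obtain ⟨h1, h2, -⟩ := hP _ (hM' e)
      have h3 : P (M' e) x ∈ closure (M' e) := h1 x
      have h4 : Q (some e) (P (M' e) x) = Q (some e) x := by
        show P (M' e) (P (M' e) x) - P (M e) (P (M' e) x) = P (M' e) x - P (M e) x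
        rw [h2 _ h3, hPP _ _ (hM e) (hM' e) (hMM' e)]
      show Q (some e) x ∈ closure (Q (some e) '' (M' e))
      rw [← h4]
      exact (image_closure_subset_closure_image (Q (some e)).continuous) ⟨_, h3, rfl⟩
  have hQA : ∀ o, ∀ a ∈ A, (1 / 2 : ℝ) • Q o a ∈ A := by
    rintro (_ | e) a ha
    · obtain ⟨-, -, -, -, -, h6, -⟩ := hP _ hM0
      have : P (cl s.θ ∅) a ∈ A := h6 a ha
      exact hG.convex.smul_mem_of_zero_mem hG.zero this ⟨by norm_num, by norm_num⟩
    · obtain ⟨-, -, -, -, -, h6, -⟩ := hP _ (hM' e)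
      obtain ⟨-, -, -, -, -, h6', -⟩ := hP _ (hM e)
      have h1 := h6 a ha
      have h2 := hG.symm _ (h6' a ha)
      have h3 := hG.convex h1 h2 (a := 1 / 2) (b := 1 / 2) (by norm_num) (by norm_num) (by norm_num)
      have h4 : (1 / 2 : ℝ) • Q (some e) a =
          (1 / 2 : ℝ) • P (M' e) a + (1 / 2 : ℝ) • -(P (M e) a) := by
        rw [← smul_add, ← sub_eq_add_neg]
        rfl
      rw [h4]
      exact h3
  have hpiece : ∀ o, ∃ K : Set X, K ⊆ closure (Q o '' A) ∧ IsCompact (toWeakSpace ℝ X '' K) ∧
      ∀ x, Q o x ∈ closure (Submodule.span ℝ K : Set X) :=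
    fun o => piece IH hG (Q o) (C o) (hCc o) (hQC o)
  choose K hKQ hKc hKs using hpiece
  -- the half scaling
  let hf : X →L[ℝ] X := (1 / 2 : ℝ) • ContinuousLinearMap.id ℝ X
  have hhf : ∀ x, hf x = (1 / 2 : ℝ) • x := fun x => by simp [hf]
  let L : Option E → Set X := fun o => hf '' (K o)
  have hLA : ∀ o, L o ⊆ A := by
    rintro o _ ⟨x, hx, rfl⟩
    have h1 := hKQ o hx
    have hcl : IsClosed {x : X | hf x ∈ A} := hG.closed.preimage hf.continuous
    refine closure_minimal ?_ hcl h1
    rintro _ ⟨a, ha, rfl⟩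
    show hf (Q o a) ∈ A
    rw [hhf]
    exact hQA o a ha
  -- finiteness
  have hfin : ∀ (f : X →L[ℝ] ℝ) (ε : ℝ), 0 < ε → {e : E | ∃ a ∈ A, ε < |f (Q (some e) a)|}.Finite := by
    intro f ε hε
    by_contra hinf
    have hinf' : {e : E | ∃ a ∈ A, ε < |f (Q (some e) a)|}.Infinite := hinf
    let u : ℕ ↪ {e : E | ∃ a ∈ A, ε < |f (Q (some e) a)|} := hinf'.natEmbedding _
    obtain ⟨g, hg⟩ := exists_increasing_or_nonincreasing_subseq r (fun n => (u n).1)
    have hinc : ∀ m n : ℕ, m < n → r (u (g m)).1 (u (g n)).1 := by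
      rcases hg with h | h
      · exact h
      · exfalso
        have hwf : WellFounded r := wo.wf
        have hdec : ∀ n : ℕ, r (u (g (n + 1))).1 (u (g n)).1 := by
          intro n
          have h1 := h n (n + 1) (Nat.lt_succ_self n)
          have h2 : (u (g n)).1 ≠ (u (g (n + 1))).1 := by
            intro heq
            have := g.injective (u.injective (Subtype.ext heq))
            omega
          rcases trichotomous_of r (u (g n)).1 (u (g (n + 1))).1 with h3 | h3 | h3
          · exact absurd h3 h1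
          · exact absurd h3 h2
          · exact h3
        exact (RelEmbedding.natGT (r := r) (fun n => (u (g n)).1) hdec).not_wellFounded hwf
    let e : ℕ → E := fun n => (u (g n)).1
    have hwit : ∀ n, ∃ a ∈ A, ε < |f (Q (some (e n)) a)| := fun n => (u (g n)).2
    have hmono : Monotone fun n => M (e n) := by
      apply monotone_nat_of_le_succ
      intro n
      apply cl_mono
      exact (subset_insert _ _).trans (hIc _ _ (hinc n (n + 1) (Nat.lt_succ_self n)))
    let CC : Set X := ⋃ n, M (e n)
    have hCC : Closed s.θ CC := closed_iUnion hmono fun n => hM _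
    obtain ⟨-, h2C, -, -, -, -, h7C⟩ := hP CC hCC
    obtain ⟨φ, hφ, hφA⟩ := h7C f (ε / 2) (by positivity)
    obtain ⟨n, hn⟩ := s.D_iUnion hmono hφ
    obtain ⟨a, ha, hlt⟩ := hwit n
    -- estimates for the two projections
    have key : ∀ D : Set X, Closed s.θ D → M (e n) ⊆ D → D ⊆ CC → |f (P D a) - φ a| ≤ ε / 2 := by
      intro D hD hsub1 hsub2
      obtain ⟨h1, -, h3, -, -, h6, -⟩ := hP D hD
      have h4 : P CC (P D a) = P D a := h2C _ (closure_mono hsub2 (h1 a))
      have h5 := hφA (P D a) (h6 a ha)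
      rw [h4, h3 φ (s.D_mono hsub1 hn)] at h5
      exact h5
    have hk1 := key (M (e n)) (hM _) (Subset.refl _) (subset_iUnion (fun n => M (e n)) n)
    have hk2 := key (M' (e n)) (hM' _) (hMM' _) (by
      refine Subset.trans ?_ (subset_iUnion (fun n => M (e n)) (n + 1))
      exact cl_mono (hIc _ _ (hinc n (n + 1) (Nat.lt_succ_self n))))
    have hQf : f (Q (some (e n)) a) = (f (P (M' (e n)) a) - φ a) - (f (P (M (e n)) a) - φ a) := by
      show f (P (M' (e n)) a - P (M (e n)) a) = _
      rw [map_sub]
      ring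
    rw [hQf] at hlt
    have := abs_sub (f (P (M' (e n)) a) - φ a) (f (P (M (e n)) a) - φ a)
    linarith
  -- the set
  refine ⟨{0} ∪ ⋃ o, L o, ?_, ?_, ?_⟩
  · rintro x (rfl | hx)
    · exact hG.zero
    · obtain ⟨o, ho⟩ := mem_iUnion.1 hx
      exact hLA o ho
  · have himg : toWeakSpace ℝ X '' ({0} ∪ ⋃ o, L o) =
        {(0 : WeakSpace ℝ X)} ∪ ⋃ o, toWeakSpace ℝ X '' L o := by
      rw [image_union, image_iUnion, image_singleton, map_zero]
    rw [himg]
    apply compact_union
    · intro o
      exact weak_image hf (hKc o)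
    · intro U hU
      obtain ⟨t, ε, hε, ht⟩ := weak_nhds hU
      have hsub : {o | ¬ toWeakSpace ℝ X '' L o ⊆ U} ⊆
          {none} ∪ some '' (⋃ f ∈ t, {e : E | ∃ a ∈ A, ε < |f (Q (some e) a)|}) := by
        rintro (_ | e) ho
        · exact Or.inl rfl
        · right
          refine ⟨e, ?_, rfl⟩
          by_contra hcon
          apply ho
          rintro _ ⟨x, ⟨k, hk, rfl⟩, rfl⟩
          apply ht
          intro f hft
          have hall : ∀ a ∈ A, |f (Q (some e) a)| ≤ ε := by
            intro a ha
            by_contra hlt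
            push Not at hlt
            apply hcon
            simp only [mem_iUnion]
            exact ⟨f, hft, a, ha, hlt⟩
          have hcl : IsClosed {x : X | |f x| ≤ ε} :=
            isClosed_le f.continuous.abs continuous_const
          have hkε : |f k| ≤ ε := by
            refine closure_minimal ?_ hcl (hKQ (some e) hk)
            rintro _ ⟨a, ha, rfl⟩
            exact hall a ha
          rw [hhf, map_smul, smul_eq_mul, abs_mul]
          have : |(1 / 2 : ℝ)| = 1 / 2 := abs_of_pos (by norm_num)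
          rw [this]
          linarith
      refine Finite.subset ?_ hsub
      refine (finite_singleton _).union (Finite.image _ ?_)
      exact (Finset.finite_toSet t).biUnion fun f _ => hfin f ε hε
  · -- density
    let Vs : Submodule ℝ X := (Submodule.span ℝ ({0} ∪ ⋃ o, L o)).topologicalClosure
    have hVcl : IsClosed (Vs : Set X) := Submodule.isClosed_topologicalClosure _
    have hQV : ∀ o x, Q o x ∈ Vs := by
      intro o x
      have h1 : Submodule.span ℝ (K o) ≤ Vs := by
        rw [Submodule.span_le]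
        intro k hk
        have h2 : hf k ∈ Submodule.span ℝ ({0} ∪ ⋃ o, L o) :=
          Submodule.subset_span (Or.inr (mem_iUnion.2 ⟨o, k, hk, rfl⟩))
        have h3 : k = (2 : ℝ) • hf k := by
          rw [hhf, smul_smul]
          norm_num
        rw [h3]
        exact Submodule.le_topologicalClosure _ (Submodule.smul_mem _ _ h2)
      exact closure_minimal (fun y hy => h1 hy) hVcl (hKs o x)
    have hMV : ∀ e, M e ⊆ (Vs : Set X) := by
      have hwf : WellFounded r := wo.wf
      intro e
      induction e using hwf.induction with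
      | _ e ih =>
        by_cases hne : ∃ e', r e' e
        · haveI : Nonempty {e' : E // r e' e} := by
            obtain ⟨e', he'⟩ := hne
            exact ⟨⟨e', he'⟩⟩
          have hsub : M e ⊆ ⋃ e' : {e' : E // r e' e}, cl s.θ (Ic e'.1) := by
            apply cl_subset_iUnion
            · intro a b
              rcases trichotomous_of r a.1 b.1 with h | h | h
              · exact ⟨b, (hIc _ _ h).trans (subset_insert _ _), Subset.refl _⟩
              · refine ⟨b, ?_, Subset.refl _⟩
                show Ic a.1 ⊆ Ic b.1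
                rw [h]
              · exact ⟨a, Subset.refl _, (hIc _ _ h).trans (subset_insert _ _)⟩
            · rintro x ⟨e', he', rfl⟩
              exact mem_iUnion.2 ⟨⟨e', he'⟩, Or.inl rfl⟩
          refine hsub.trans (iUnion_subset fun e' => ?_)
          intro x hx
          have hx' : x ∈ M' e'.1 := hx
          obtain ⟨-, h2, -⟩ := hP _ (hM' e'.1)
          have h3 : P (M' e'.1) x = x := h2 x (subset_closure hx')
          have h4 : x = Q (some e'.1) x + P (M e'.1) x := by
            show x = (P (M' e'.1) x - P (M e'.1) x) + P (M e'.1) x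
            rw [sub_add_cancel, h3]
          have h5 : P (M e'.1) x ∈ Vs := by
            obtain ⟨h1, -⟩ := hP _ (hM e'.1)
            exact closure_minimal (ih e'.1 e'.2) hVcl (h1 x)
          rw [h4]
          exact Vs.add_mem (hQV (some e'.1) x) h5
        · have hempty : Io e = ∅ := by
            rw [eq_empty_iff_forall_notMem]
            rintro x ⟨e', he', -⟩
            exact hne ⟨e', he'⟩
          intro x hx
          have hx0 : x ∈ cl s.θ (∅ : Set X) := by
            rw [← hempty]
            exact hx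
          obtain ⟨-, h2, -⟩ := hP _ hM0
          have h3 : P (cl s.θ ∅) x = x := h2 x (subset_closure hx0)
          rw [← h3]
          exact hQV none x
    have hEV : E ⊆ (Vs : Set X) := by
      intro x hx
      let e : E := ⟨x, hx⟩
      have hxM : x ∈ M' e := subset_cl _ (Or.inl rfl)
      obtain ⟨-, h2, -⟩ := hP _ (hM' e)
      have h3 : P (M' e) x = x := h2 x (subset_closure hxM)
      have h4 : x = Q (some e) x + P (M e) x := by
        show x = (P (M' e) x - P (M e) x) + P (M e) x
        rw [sub_add_cancel, h3]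
      have h5 : P (M e) x ∈ Vs := by
        obtain ⟨h1, -⟩ := hP _ (hM e)
        exact closure_minimal (hMV e) hVcl (h1 x)
      rw [h4]
      exact Vs.add_mem (hQV (some e) x) h5
    intro x
    have := closure_minimal hEV hVcl (hEd x)
    rwa [SetLike.mem_coe, ← SetLike.mem_coe, Submodule.topologicalClosure_coe] at this

theorem concl_all (κ : Cardinal.{0}) : Concl κ := by
  induction κ using WellFoundedLT.induction with
  | _ κ IH =>
    intro X _ _ _ A Γ hG ⟨E, hEd, hE⟩
    by_cases hsep : #E ≤ ℵ₀
    · have : E.Countable := Cardinal.le_aleph0_iff_set_countable.1 hsep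
      exact separable_case hG ⟨E, this, hEd⟩
    · push Not at hsep
      rcases lt_or_eq_of_le hE with hlt | heq
      · exact IH _ hlt X A Γ hG ⟨E, hEd, le_rfl⟩
      · rw [heq] at hsep
        exact main_step hsep IH hG E hEd heq

end Pool.Agent.Helper68.WCG
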