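import Mathlib
import Pool.Agent.Helper68.WCG.Main

/-!
# Asplund generated WLD spaces are WCG
-/

set_option autoImplicit false
set_option linter.style.haveILetI false
set_option linter.unusedSectionVars false

open Set Topology Metric Filter Cardinal

namespace Pool.Agent.Helper68.WCG

/-- The unit ball of an Asplund space is an Asplund set. -/
theorem aspSet_ball {Y : Type} [NormedAddCommGroup Y] [NormedSpace ℝ Y]
    (hY : ∀ S : Submodule ℝ Y, TopologicalSpace.IsSeparable (S : Set Y) →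
      TopologicalSpace.SeparableSpace (S →L[ℝ] ℝ)) :
    AspSet (closedBall (0 : Y) 1) := by
  intro S hS hSc
  let Z : Submodule ℝ Y := Submodule.span ℝ S
  have hsep : TopologicalSpace.IsSeparable (Z : Set Y) := hSc.isSeparable.span
  haveI := hY Z hsep
  obtain ⟨D, hDc, hD⟩ := TopologicalSpace.exists_countable_dense (Z →L[ℝ] ℝ)
  have hext : ∀ z : Z →L[ℝ] ℝ, ∃ g : Y →L[ℝ] ℝ, ∀ x : Z, g x = z x := by
    intro z
    obtain ⟨g, hg, -⟩ := exists_extension_norm_eq Z z
    exact ⟨g, hg⟩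
  choose e he using hext
  refine ⟨e '' D, hDc.image e, fun f ε hε => ?_⟩
  have hcl : (f.comp Z.subtypeL) ∈ closure D := hD (f.comp Z.subtypeL)
  obtain ⟨z, hzD, hz⟩ := (SeminormedAddCommGroup.mem_closure_iff (E := Z →L[ℝ] ℝ)).1 hcl ε hε
  refine ⟨e z, ⟨z, hzD, rfl⟩, fun a ha => ?_⟩
  have haZ : a ∈ Z := Submodule.subset_span ha
  have h1 : e z a = z ⟨a, haZ⟩ := he z ⟨a, haZ⟩
  have h2 : f a = (f.comp Z.subtypeL) ⟨a, haZ⟩ := rfl
  have h6 : f a - e z a = (f.comp Z.subtypeL - z) ⟨a, haZ⟩ := by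
    rw [h1, h2]
    rfl
  rw [h6]
  have h3 : ‖(⟨a, haZ⟩ : Z)‖ ≤ 1 := by
    have := hS ha
    rw [mem_closedBall_zero_iff] at this
    exact this
  have h4 := (f.comp Z.subtypeL - z).le_opNorm ⟨a, haZ⟩
  rw [Real.norm_eq_abs] at h4
  calc |(f.comp Z.subtypeL - z) ⟨a, haZ⟩| ≤ ‖f.comp Z.subtypeL - z‖ * ‖(⟨a, haZ⟩ : Z)‖ := h4
    _ ≤ ‖f.comp Z.subtypeL - z‖ * 1 := by gcongr
    _ ≤ ε := by linarith

/-- Every Asplund generated WLD space is WCG. -/
theorem wcg_of_asplundGenerated_wld (X : Type) [NormedAddCommGroup X] [NormedSpace ℝ X]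
    [CompleteSpace X]
    (h1 : ∃ (Y : Type) (_ : NormedAddCommGroup Y) (_ : NormedSpace ℝ Y) (_ : CompleteSpace Y),
      (∀ S : Submodule ℝ Y, TopologicalSpace.IsSeparable (S : Set Y) →
          TopologicalSpace.SeparableSpace (S →L[ℝ] ℝ)) ∧
      ∃ T : Y →L[ℝ] X, DenseRange T)
    (h2 : ∃ M : Set X, Dense (Submodule.span ℝ M : Set X) ∧
      ∀ f : X →L[ℝ] ℝ, {x ∈ M | f x ≠ 0}.Countable) :
    ∃ K : Set X, IsCompact (toWeakSpace ℝ X '' K) ∧
      Dense (Submodule.span ℝ K : Set X) := by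
  obtain ⟨Y, _, _, _, hY, T, hT⟩ := h1
  obtain ⟨Γ, hΓ, hΓc⟩ := h2
  have hball := aspSet_ball hY
  have hG : Good (closure (T '' closedBall (0 : Y) 1)) Γ := by
    refine ⟨isClosed_closure, ?_, ?_, ?_, ?_, ?_, hball.image T, hΓ, hΓc⟩
    · exact ((convex_closedBall _ _).linear_image T.toLinearMap).closure
    · intro a ha
      have hsub : closure (T '' closedBall (0 : Y) 1) ⊆
          (fun y : X => -y) ⁻¹' closure (T '' closedBall (0 : Y) 1) := by
        refine closure_minimal ?_ (isClosed_closure.preimage continuous_neg)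
        rintro _ ⟨a, ha, rfl⟩
        show -(T a) ∈ closure (T '' closedBall (0 : Y) 1)
        rw [← map_neg]
        exact subset_closure ⟨-a, by simpa using ha, rfl⟩
      exact hsub ha
    · exact subset_closure ⟨0, by simp, map_zero T⟩
    · refine ⟨‖T‖, fun a ha => ?_⟩
      refine closure_minimal ?_ (isClosed_le continuous_norm continuous_const) ha
      rintro _ ⟨y, hy, rfl⟩
      rw [mem_closedBall_zero_iff] at hy
      show ‖T y‖ ≤ ‖T‖
      calc ‖T y‖ ≤ ‖T‖ * ‖y‖ := T.le_opNorm y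
        _ ≤ ‖T‖ * 1 := by gcongr
        _ = ‖T‖ := mul_one _
    · refine hT.mono ?_
      rintro _ ⟨y, rfl⟩
      -- scale into the ball
      by_cases hy : ‖y‖ ≤ 1
      · exact Submodule.subset_span (subset_closure ⟨y, by simpa using hy, rfl⟩)
      · push Not at hy
        have hpos : 0 < ‖y‖ := by linarith
        have h3 : T y = ‖y‖ • T (‖y‖⁻¹ • y) := by
          rw [map_smul, smul_smul, mul_inv_cancel₀ hpos.ne', one_smul]
        rw [h3]
        refine Submodule.smul_mem _ _ (Submodule.subset_span (subset_closure ⟨_, ?_, rfl⟩))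
        rw [mem_closedBall_zero_iff, norm_smul, norm_inv, norm_norm, inv_mul_cancel₀ hpos.ne']
  obtain ⟨K, -, hK1, hK2⟩ := concl_all #(univ : Set X) X _ Γ hG ⟨univ, dense_univ, le_rfl⟩
  exact ⟨K, hK1, hK2⟩

end Pool.Agent.Helper68.WCG
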